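import Pool.Agent.helper29.PQ.Spec

/-!
# MP_56fc12_nt, row pq:B2: the Euler product
-/

namespace Pool.Agent.helper29.PQ

open Finset

theorem B2_v {p : ℝ} (hp : 5 ≤ p) : p / (p - 1) ^ 2 ≤ 2 / p := by
  have h1 : 0 < p - 1 := by linarith
  have h2 : 0 < p := by linarith
  rw [div_le_div_iff₀ (by positivity) h2]
  nlinarith [mul_pos h1 h2]

theorem B2_fac (L w p : ℕ) (hw : 5 ≤ w) (hp : w < p) :
    1 + ((1 + (p : ℝ) / ((p : ℝ) - 1) ^ 2) ^ (L * w) - 1) * (p : ℝ) ^ (-(1 / 6) : ℝ)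
      ≤ Real.exp (2 * L * w * Real.exp (2 * L) * (p : ℝ) ^ (-(1 + 1 / 6) : ℝ)) := by
  have hpR : (w : ℝ) < p := by exact_mod_cast hp
  have hwR : (5 : ℝ) ≤ w := by exact_mod_cast hw
  have hp0 : (0 : ℝ) < p := by linarith
  have hL0 : (0 : ℝ) ≤ L := Nat.cast_nonneg L
  set v : ℝ := (p : ℝ) / ((p : ℝ) - 1) ^ 2 with hv
  have hv0 : 0 ≤ v := by positivity
  have hv2 : v ≤ 2 / p := B2_v (by linarith)
  set t : ℝ := v * (L * w) with ht
  have ht0 : 0 ≤ t := by positivity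
  have ht1 : t ≤ 2 * L * w / p := by
    rw [ht]
    calc v * (L * w) ≤ 2 / p * (L * w) := by gcongr
      _ = 2 * L * w / p := by ring
  have ht2 : t ≤ 2 * L := by
    refine ht1.trans ?_
    rw [div_le_iff₀ hp0]
    nlinarith [mul_nonneg hL0 (sub_nonneg.mpr hpR.le)]
  have h1 : (1 + v) ^ (L * w) ≤ Real.exp t := by
    have := Real.add_one_le_exp v
    calc (1 + v) ^ (L * w) ≤ (Real.exp v) ^ (L * w) := by
          gcongr
          linarith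
      _ = Real.exp t := by
          rw [← Real.exp_nat_mul, ht]
          congr 1
          push_cast
          ring
  have h2 : Real.exp t - 1 ≤ t * Real.exp t := by
    have h := Real.add_one_le_exp (-t)
    have h3 : Real.exp (-t) * Real.exp t = 1 := by
      rw [← Real.exp_add]; simp
    nlinarith [Real.exp_pos t]
  have h3 : (1 + v) ^ (L * w) - 1 ≤ 2 * L * w / p * Real.exp (2 * L) := by
    calc (1 + v) ^ (L * w) - 1 ≤ t * Real.exp t := by linarith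
      _ ≤ 2 * L * w / p * Real.exp (2 * L) := by
          gcongr
  have h4 : (p : ℝ) ^ (-(1 + 1 / 6) : ℝ) = (1 / p) * (p : ℝ) ^ (-(1 / 6) : ℝ) := by
    rw [show (-(1 + 1 / 6) : ℝ) = -1 + -(1 / 6) by ring, Real.rpow_add hp0, Real.rpow_neg_one]
    simp
  calc 1 + ((1 + v) ^ (L * w) - 1) * (p : ℝ) ^ (-(1 / 6) : ℝ)
      ≤ 1 + (2 * L * w / p * Real.exp (2 * L)) * (p : ℝ) ^ (-(1 / 6) : ℝ) := by gcongr
    _ = 2 * L * w * Real.exp (2 * L) * (p : ℝ) ^ (-(1 + 1 / 6) : ℝ) + 1 := by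
        rw [h4]; ring
    _ ≤ _ := Real.add_one_le_exp _

theorem B2 (h0 : B0_stmt) : B2_stmt := by
  intro L w P hw hP
  have hwR : (5 : ℝ) ≤ w := by exact_mod_cast hw
  have hL0 : (0 : ℝ) ≤ L := Nat.cast_nonneg L
  have hnn : ∀ p ∈ P, 0 ≤ 1 + ((1 + (p : ℝ) / ((p : ℝ) - 1) ^ 2) ^ (L * w) - 1)
      * (p : ℝ) ^ (-(1 / 6) : ℝ) := by
    intro p _
    have h1 : (1 : ℝ) ≤ (1 + (p : ℝ) / ((p : ℝ) - 1) ^ 2) ^ (L * w) := by
      apply one_le_pow₀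
      have : 0 ≤ (p : ℝ) / ((p : ℝ) - 1) ^ 2 := by positivity
      linarith
    have h2 : 0 ≤ (p : ℝ) ^ (-(1 / 6) : ℝ) := by positivity
    have h3 := mul_nonneg (sub_nonneg.mpr h1) h2
    linarith
  have hsum : ∑ p ∈ P, (p : ℝ) ^ (-(1 + 1 / 6) : ℝ) ≤ 6 * (w : ℝ) ^ (-(1 / 6) : ℝ) := by
    calc ∑ p ∈ P, (p : ℝ) ^ (-(1 + 1 / 6) : ℝ)
        ≤ ∑ p ∈ Ioc w (P.sup id), (p : ℝ) ^ (-(1 + 1 / 6) : ℝ) := by
          refine Finset.sum_le_sum_of_subset_of_nonneg ?_ ?_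
          · intro p hp
            rw [Finset.mem_Ioc]
            exact ⟨hP p hp, Finset.le_sup (f := id) hp⟩
          · intro i _ _
            positivity
      _ ≤ (1 / (1 / 6 : ℝ)) * (w : ℝ) ^ (-(1 / 6 : ℝ)) := h0 (1 / 6) (by norm_num) w _ (by omega)
      _ = 6 * (w : ℝ) ^ (-(1 / 6) : ℝ) := by norm_num
  calc ∏ p ∈ P, (1 + ((1 + (p : ℝ) / ((p : ℝ) - 1) ^ 2) ^ (L * w) - 1)
        * (p : ℝ) ^ (-(1 / 6) : ℝ))
      ≤ ∏ p ∈ P, Real.exp (2 * L * w * Real.exp (2 * L) * (p : ℝ) ^ (-(1 + 1 / 6) : ℝ)) :=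
        Finset.prod_le_prod hnn fun p hp => B2_fac L w p hw (hP p hp)
    _ = Real.exp (2 * L * w * Real.exp (2 * L) * ∑ p ∈ P, (p : ℝ) ^ (-(1 + 1 / 6) : ℝ)) := by
        rw [← Real.exp_sum, Finset.mul_sum]
    _ ≤ Real.exp (2 * L * w * Real.exp (2 * L) * (6 * (w : ℝ) ^ (-(1 / 6) : ℝ))) := by
        rw [Real.exp_le_exp]
        gcongr
    _ = _ := by
        congr 1
        ring

end Pool.Agent.helper29.PQ
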